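import Pool.Agent.Lib.MP_4f753b_an.W.W9
import Pool.Agent.Lib.MP_4f753b_an.W.W10

/-!
# Approximation of homeomorphisms of `ℝ^n` by diffeomorphisms: almost affine walls suffice

A homeomorphism `f` of `ℝ^n`, `n ≥ 2`, is a limit of `C^∞` diffeomorphisms, uniformly on compact
sets, if and only if it can be approximated on each ball by homeomorphisms which are almost affine
at all small scales along walls `x i = t`, for infinitely many `t` in each interval of length `δ`.
Nothing is asked for between the walls. The constant `ε` which measures this depends on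
`n` only.
-/

open Set Metric Filter
open scoped ContDiff Topology

namespace Pool.Agent.Results.MP_4f753b_an.AlmostAffineWalls

/-- The Euclidean space `ℝ^n`. -/
abbrev E (n : ℕ) : Type := EuclideanSpace ℝ (Fin n)

/-- `C^∞` diffeomorphisms of `ℝ^n`. -/
def IsDiffeo {n : ℕ} (g : E n ≃ₜ E n) : Prop := ContDiff ℝ ∞ g ∧ ContDiff ℝ ∞ g.symm

/-- `f` is the limit of a sequence of diffeomorphisms of `ℝ^n`, uniformly on compact sets. -/
def Approximable {n : ℕ} (f : E n ≃ₜ E n) : Prop :=
  ∃ g : ℕ → (E n ≃ₜ E n), (∀ j, IsDiffeo (g j)) ∧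
    ∀ C : Set (E n), IsCompact C → TendstoUniformlyOn (fun j x => g j x) f atTop C

/-- `h` is almost affine, with error `ε`, at the scale `s` around `x`: on the closed ball with
centre `x` and radius `s` it differs from an invertible affine map `y ↦ b + A y` by at most
`ε * s / ‖A⁻¹‖`. -/
def AlmostAffine {n : ℕ} (ε : ℝ) (h : E n → E n) (x : E n) (s : ℝ) : Prop :=
  ∃ (A : E n ≃L[ℝ] E n) (b : E n), ∀ y ∈ closedBall x s,
    ‖(A.symm : E n →L[ℝ] E n)‖ * ‖h y - (b + A y)‖ ≤ ε * s

/-- **A homeomorphism `f` of `ℝ^n`, `n ≥ 2`, is a limit of diffeomorphisms if and only if, on each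
ball, it is a limit of homeomorphisms which are almost affine at small scales along a fine grid of
walls.** -/
theorem result (n : ℕ) (hn : 2 ≤ n) : ∃ ε : ℝ, 0 < ε ∧ ∀ f : E n ≃ₜ E n,
    Approximable f ↔ ∀ R : ℝ, 0 < R → ∀ δ : ℝ, 0 < δ → ∃ h : E n ≃ₜ E n,
      (∀ x ∈ closedBall (0 : E n) R, dist (h x) (f x) < δ) ∧
      ∃ r : ℝ, 0 < r ∧ ∀ (i : Fin n) (a : ℝ),
        {t : ℝ | t ∈ Ioo a (a + δ) ∧ ∀ x ∈ closedBall (0 : E n) R, x i = t →
          ∀ s : ℝ, 0 < s → s ≤ r → AlmostAffine ε h x s}.Infinite := by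
  obtain ⟨ε, hε, hw⟩ := Pool.Agent.Walls.approx_of_walls n hn
  refine ⟨ε, hε, fun f => ⟨?_, fun H => ?_⟩⟩
  · rintro ⟨g, hg, hgf⟩ R _ δ hδ
    have h1 := Metric.tendstoUniformlyOn_iff.1 (hgf _ (isCompact_closedBall 0 R)) δ hδ
    obtain ⟨j, hj⟩ := h1.exists
    obtain ⟨r, hr, h2⟩ := Pool.Agent.Walls.aa_of_isDiffeo (g := g j) (hg j) R hε
    refine ⟨g j, fun x hx => ?_, r, hr, fun i a => ?_⟩
    · rw [dist_comm]
      exact hj x hx
    · have h3 : (Ioo a (a + δ)).Infinite := Set.Ioo_infinite (by linarith)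
      exact h3.mono fun t ht => ⟨ht, fun x hx _ s hs hsr => h2 x hx s hs hsr⟩
  · have h1 : Pool.Agent.TopCells.Approx f := hw f H
    have h2 : ∀ j : ℕ, ∃ g : E n ≃ₜ E n, IsDiffeo g ∧
        ∀ x ∈ closedBall (0 : E n) ((j : ℝ) + 1), dist (g x) (f x) < 1 / ((j : ℝ) + 1) := fun j =>
      h1 ((j : ℝ) + 1) (by positivity) (1 / ((j : ℝ) + 1)) (by positivity)
    choose g hg hgf using h2
    refine ⟨g, hg, fun C hC => ?_⟩
    rw [Metric.tendstoUniformlyOn_iff]
    intro η hη
    obtain ⟨M, hM⟩ := hC.isBounded.subset_closedBall 0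
    obtain ⟨N, hN⟩ := exists_nat_gt (max M (1 / η))
    filter_upwards [eventually_ge_atTop N] with j hj x hx
    have h3 : (N : ℝ) ≤ j := by exact_mod_cast hj
    have h4 : M < (j : ℝ) + 1 := by
      have := (le_max_left M (1 / η)).trans_lt hN
      linarith
    have h5 : 1 / ((j : ℝ) + 1) < η := by
      have h6 := (le_max_right M (1 / η)).trans_lt hN
      rw [div_lt_iff₀ hη] at h6
      rw [div_lt_iff₀ (by positivity)]
      nlinarith
    rw [dist_comm]
    exact (hgf j x (closedBall_subset_closedBall h4.le (hM hx))).trans h5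

end Pool.Agent.Results.MP_4f753b_an.AlmostAffineWalls
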