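import Pool.Agent.Lib.MP_4f753b_an.E2

/-!
# Approximation of homeomorphisms of `ℝ^n` by diffeomorphisms: small bad sets are harmless

A homeomorphism `f` of `ℝ^n`, `n ≥ 2`, is a limit of `C^∞` diffeomorphisms, uniformly on compact
sets, if and only if it can be approximated on each ball by homeomorphisms which are local
diffeomorphisms off a small set: a set of one-dimensional Hausdorff measure zero, or a set all whose
coordinate projections have empty interior, or a set which lies in finitely many small disjoint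
cells. In dimension four this says that the top dimensional cells of a triangulation are never an
obstruction to the approximation.
-/

open Set Metric Filter MeasureTheory
open scoped ContDiff Topology

namespace Pool.Agent.Results.MP_4f753b_an.SmallBadSets

/-- The Euclidean space `ℝ^n`. -/
abbrev E (n : ℕ) : Type := EuclideanSpace ℝ (Fin n)

/-- `f` is a local `C^∞` diffeomorphism at `x`: it is `C^∞` in a neighbourhood of `x` and its
derivative at `x` is invertible. -/
def LocDiffeoAt {n : ℕ} (f : E n → E n) (x : E n) : Prop :=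
  (∀ᶠ y in 𝓝 x, ContDiffAt ℝ ∞ f y) ∧ ∃ A : E n ≃L[ℝ] E n, HasFDerivAt f (A : E n →L[ℝ] E n) x

/-- `C^∞` diffeomorphisms of `ℝ^n`. -/
def IsDiffeo {n : ℕ} (g : E n ≃ₜ E n) : Prop := ContDiff ℝ ∞ g ∧ ContDiff ℝ ∞ g.symm

/-- `f` is the limit of a sequence of diffeomorphisms of `ℝ^n`, uniformly on compact sets. -/
def Approximable {n : ℕ} (f : E n ≃ₜ E n) : Prop :=
  ∃ g : ℕ → (E n ≃ₜ E n), (∀ j, IsDiffeo (g j)) ∧
    ∀ C : Set (E n), IsCompact C → TendstoUniformlyOn (fun j x => g j x) f atTop C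

/-- A cell: a compact set which is convex, or which can be shrunk, by diffeomorphisms of `ℝ^n` with
compact support in an arbitrary neighbourhood of it, into arbitrarily small balls around one of its
points. -/
def Cell {n : ℕ} (Q : Set (E n)) : Prop :=
  IsCompact Q ∧ (Convex ℝ Q ∨ ∃ c ∈ Q, ∀ U : Set (E n), IsOpen U → Q ⊆ U → ∀ t : ℝ, 0 < t →
    ∃ e : E n ≃ₜ E n, IsDiffeo e ∧ (∃ K : Set (E n), IsCompact K ∧ K ⊆ U ∧ ∀ x, x ∉ K → e x = x) ∧
      ∀ x ∈ Q, dist (e x) c ≤ t)

/-- Small sets: of one-dimensional Hausdorff measure zero, or with all coordinate projections of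
empty interior, or contained in finitely many pairwise disjoint cells of diameter less than `δ`. -/
def Small {n : ℕ} (δ : ℝ) (Z : Set (E n)) : Prop :=
  μH[1] Z = 0 ∨ (∀ i : Fin n, interior ((fun x : E n => x i) '' Z) = ∅) ∨
    ∃ 𝒬 : Set (Set (E n)), 𝒬.Finite ∧ 𝒬.PairwiseDisjoint id ∧
      (∀ Q ∈ 𝒬, Cell Q ∧ diam Q < δ) ∧ Z ⊆ ⋃₀ 𝒬

/-- **A homeomorphism `f` of `ℝ^n`, `n ≥ 2`, is a limit of diffeomorphisms if and only if, on each
ball, it is a limit of homeomorphisms with small bad sets.** -/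
theorem result (n : ℕ) (hn : 2 ≤ n) (f : E n ≃ₜ E n) :
    Approximable f ↔ ∀ R : ℝ, 0 < R → ∀ δ : ℝ, 0 < δ → ∃ h : E n ≃ₜ E n,
      (∀ x ∈ closedBall (0 : E n) R, dist (h x) (f x) < δ) ∧
      Small δ {x | x ∈ closedBall (0 : E n) R ∧ ¬ LocDiffeoAt h x} := by
  constructor
  · rintro ⟨g, hg, hgf⟩ R _ δ hδ
    have h1 := Metric.tendstoUniformlyOn_iff.1 (hgf _ (isCompact_closedBall 0 R)) δ hδ
    obtain ⟨j, hj⟩ := h1.exists
    refine ⟨g j, fun x hx => ?_, Or.inl ?_⟩
    · rw [dist_comm]
      exact hj x hx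
    · have h2 : {x | x ∈ closedBall (0 : E n) R ∧ ¬ LocDiffeoAt (g j) x} = ∅ := by
        ext x
        simp only [mem_ofPred_eq, mem_empty_iff_false, iff_false, not_and, not_not]
        intro _
        exact Pool.Agent.TopCells.LD.of_isDiffeo (e := g j) (hg j) x
      rw [h2]
      exact measure_empty
  · intro H
    have h1 : Pool.Agent.TopCells.Approx f := by
      refine Pool.Agent.TopCells.approx_of_bad hn f fun R hR d hd => ?_
      obtain ⟨h, h2, h3⟩ := H R hR d hd
      refine ⟨h, h2, ?_⟩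
      rcases h3 with h3 | h3 | h3
      · exact Or.inl fun i => Pool.Agent.TopCells.interior_proj_of_null h3 i
      · exact Or.inl h3
      · obtain ⟨𝒬, h4, h5, h6, h7⟩ := h3
        refine Or.inr ⟨𝒬, h4, h5, fun Q hQ => ?_, h7⟩
        obtain ⟨⟨h8, h9⟩, h10⟩ := h6 Q hQ
        refine ⟨⟨h8, ?_⟩, h10⟩
        rcases h9 with h9 | ⟨c, hc, h9⟩
        · exact Or.inl h9
        · refine Or.inr ⟨h8, c, hc, fun U hU hQU t ht => ?_⟩
          obtain ⟨e, he1, he2, he3⟩ := h9 U hU hQU t ht
          exact ⟨e, ⟨he1, he2⟩, fun x hx => mem_closedBall.2 (he3 x hx)⟩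
    have h2 : ∀ j : ℕ, ∃ g : E n ≃ₜ E n, IsDiffeo g ∧
        ∀ x ∈ closedBall (0 : E n) ((j : ℝ) + 1), dist (g x) (f x) < 1 / ((j : ℝ) + 1) := fun j =>
      h1 ((j : ℝ) + 1) (by positivity) (1 / ((j : ℝ) + 1)) (by positivity)
    choose g hg hgf using h2
    refine ⟨g, hg, fun C hC => ?_⟩
    rw [Metric.tendstoUniformlyOn_iff]
    intro ε hε
    obtain ⟨M, hM⟩ := hC.isBounded.subset_closedBall 0
    obtain ⟨N, hN⟩ := exists_nat_gt (max M (1 / ε))
    filter_upwards [eventually_ge_atTop N] with j hj x hx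
    have h3 : (N : ℝ) ≤ j := by exact_mod_cast hj
    have h4 : M < (j : ℝ) + 1 := by
      have := (le_max_left M (1 / ε)).trans_lt hN
      linarith
    have h5 : 1 / ((j : ℝ) + 1) < ε := by
      have h6 := (le_max_right M (1 / ε)).trans_lt hN
      rw [div_lt_iff₀ hε] at h6
      rw [div_lt_iff₀ (by positivity)]
      nlinarith
    rw [dist_comm]
    exact (hgf j x (closedBall_subset_closedBall h4.le (hM hx))).trans h5

end Pool.Agent.Results.MP_4f753b_an.SmallBadSets
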