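import Pool.Agent.Lib.MP_4f753b_an.W.S7
import Pool.Agent.Lib.MP_4f753b_an.W.S8

/-!
# Homeomorphisms of `ℝ^n` with second derivatives in `L^(n - 1)` are limits of diffeomorphisms

Let `n ≥ 3`. A homeomorphism `f` of `ℝ^n` whose inverse is locally Lipschitz and which has weak
second derivatives in `L^(n - 1)` locally is a limit of `C^∞` diffeomorphisms, uniformly on compact
sets. In dimension four: `f` in the Sobolev space `W^{2,3}_loc` with locally Lipschitz inverse.
-/

open Set Metric Filter MeasureTheory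
open scoped ContDiff Topology

namespace Pool.Agent.Results.MP_4f753b_an.SobolevHomeomorphisms

/-- The Euclidean space `ℝ^n`. -/
abbrev E (n : ℕ) : Type := EuclideanSpace ℝ (Fin n)

/-- `C^∞` diffeomorphisms of `ℝ^n`. -/
def IsDiffeo {n : ℕ} (g : E n ≃ₜ E n) : Prop := ContDiff ℝ ∞ g ∧ ContDiff ℝ ∞ g.symm

/-- `f` is the limit of a sequence of diffeomorphisms of `ℝ^n`, uniformly on compact sets. -/
def Approximable {n : ℕ} (f : E n ≃ₜ E n) : Prop :=
  ∃ g : ℕ → (E n ≃ₜ E n), (∀ j, IsDiffeo (g j)) ∧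
    ∀ C : Set (E n), IsCompact C → TendstoUniformlyOn (fun j x => g j x) f atTop C

/-- The partial derivative of `ψ` in the direction of the `i`-th coordinate. -/
noncomputable def pd {n : ℕ} (i : Fin n) (ψ : E n → ℝ) (x : E n) : ℝ :=
  fderiv ℝ ψ x (EuclideanSpace.single i 1)

/-- `f` has weak second partial derivatives `h`, with `‖h‖ ^ p` locally integrable. -/
def HasWeakSecondDerivatives {n : ℕ} (p : ℕ) (f : E n → E n) : Prop :=
  ∀ i j : Fin n, ∃ h : E n → E n,
    LocallyIntegrable h ∧ LocallyIntegrable (fun x => ‖h x‖ ^ p) ∧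
    ∀ ψ : E n → ℝ, ContDiff ℝ ∞ ψ → HasCompactSupport ψ →
      ∫ x, pd j (pd i ψ) x • f x = ∫ x, ψ x • h x

/-- **A homeomorphism `f` of `ℝ^n`, `n ≥ 3`, with locally Lipschitz inverse and with weak second
derivatives in `L^(n - 1)` locally is a limit of diffeomorphisms.** -/
theorem result (n : ℕ) (hn : 3 ≤ n) (f : E n ≃ₜ E n)
    (hinv : ∀ R : ℝ, ∃ M : ℝ, ∀ x ∈ closedBall (0 : E n) R, ∀ y ∈ closedBall (0 : E n) R,
      dist x y ≤ M * dist (f x) (f y))
    (hf : HasWeakSecondDerivatives (n - 1) f) : Approximable f := by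
  have h1 : Pool.Agent.TopCells.Approx f := by
    choose h hh1 hh2 hh3 using hf
    obtain ⟨p, hp⟩ : ∃ p, n - 1 = p + 1 := ⟨n - 2, by omega⟩
    rw [hp] at hh2
    refine Pool.Agent.Walls.approx_of_weakHess hn f (fun R => ?_)
      (fun x => Pool.Agent.Walls.bil fun i j => h i j x)
      (Pool.Agent.Walls.weakHess_bil f.continuous hh1 hh3) ?_
    · obtain ⟨M, hM⟩ := hinv R
      refine ⟨M, fun x hx y hy => ?_⟩
      have h2 := hM x hx y hy
      rwa [dist_eq_norm, dist_eq_norm] at h2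
    · rw [hp]
      exact Pool.Agent.Walls.locallyIntegrable_bil hh1 hh2
  have h2 : ∀ j : ℕ, ∃ g : E n ≃ₜ E n, IsDiffeo g ∧
      ∀ x ∈ closedBall (0 : E n) ((j : ℝ) + 1), dist (g x) (f x) < 1 / ((j : ℝ) + 1) := fun j =>
    h1 ((j : ℝ) + 1) (by positivity) (1 / ((j : ℝ) + 1)) (by positivity)
  choose g hg hgf using h2
  refine ⟨g, hg, fun C hC => ?_⟩
  rw [Metric.tendstoUniformlyOn_iff]
  intro η hη
  obtain ⟨M, hM⟩ := hC.isBounded.subset_closedBall 0
  obtain ⟨N, hN⟩ := exists_nat_gt (max M (1 / η))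
  filter_upwards [eventually_ge_atTop N] with j hj x hx
  have h3 : (N : ℝ) ≤ j := by exact_mod_cast hj
  have h4 : M < (j : ℝ) + 1 := by
    have := (le_max_left M (1 / η)).trans_lt hN
    linarith
  have h5 : 1 / ((j : ℝ) + 1) < η := by
    have h6 := (le_max_right M (1 / η)).trans_lt hN
    rw [div_lt_iff₀ hη] at h6
    rw [div_lt_iff₀ (by positivity)]
    nlinarith
  rw [dist_comm]
  exact (hgf j x (closedBall_subset_closedBall h4.le (hM hx))).trans h5

end Pool.Agent.Results.MP_4f753b_an.SobolevHomeomorphisms
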